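import Mathlib
import Pool.Agent.H30.Sigma

set_option autoImplicit false

namespace Pool.Agent.Results.MP_8ff099_gt.Sigma

open Set Filter Topology

/-- Selectively highly divergent spaces. -/
def SHD (X : Type*) [TopologicalSpace X] : Prop :=
  ∀ U : ℕ → Set X, (∀ n, IsOpen (U n) ∧ (U n).Nonempty) → ∃ x : ℕ → X, (∀ n, x n ∈ U n) ∧
    ∀ φ : ℕ → ℕ, StrictMono φ → ∀ p : X, ¬ Tendsto (x ∘ φ) atTop (𝓝 p)

lemma beta {K : Type*} [TopologicalSpace K] [CompactSpace K] [T2Space K] {D : Set K}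
    (hD : Dense D) (h : SHD K) : SHD (StoneCech D) := by
  intro U hU
  let π : StoneCech D → K := stoneCechExtend continuous_subtype_val
  have hπ : Continuous π := continuous_stoneCechExtend _
  have key : ∀ n, ∃ W : Set K, IsOpen W ∧ W.Nonempty ∧ W ⊆ π '' U n := by
    intro n
    obtain ⟨a, ha⟩ := (hU n).2
    obtain ⟨C, hC, hc, hCU⟩ := exists_mem_nhds_isClosed_subset ((hU n).1.mem_nhds ha)
    obtain ⟨W, hW, e⟩ := isOpen_induced_iff.1 (isOpen_interior (s := C).preimage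
      (continuous_stoneCechUnit (α := D)))
    obtain ⟨d, hd⟩ := denseRange_stoneCechUnit.exists_mem_open isOpen_interior
      ⟨a, mem_interior_iff_mem_nhds.2 hC⟩
    have hd' : d ∈ Subtype.val ⁻¹' W := e ▸ hd
    refine ⟨W, hW, ⟨d, hd'⟩, (hD.open_subset_closure_inter hW).trans ?_⟩
    refine Subset.trans (closure_minimal ?_ (hc.isCompact.image hπ).isClosed) (image_mono hCU)
    rintro y ⟨hy, hyD⟩
    have : (⟨y, hyD⟩ : D) ∈ stoneCechUnit ⁻¹' interior C := e ▸ hy
    exact ⟨_, interior_subset this, stoneCechExtend_stoneCechUnit _ _⟩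
  choose W h1 h2 h3 using key
  obtain ⟨y, hy, hd⟩ := h W fun n => ⟨h1 n, h2 n⟩
  choose x hx e using fun n => h3 n (hy n)
  refine ⟨x, hx, fun φ hφ p hp => hd φ hφ (π p) ?_⟩
  exact ((hπ.tendsto p).comp hp).congr fun n => e _

open Pool.Agent.H30.Sigma in
theorem result : ∃ (X : Type) (_ : TopologicalSpace X), T35Space X ∧ T1Space X ∧
    ¬ CompactSpace X ∧ SHD (StoneCech X) ∧ ¬ SHD X := by
  refine ⟨D, inferInstance, inferInstance, inferInstance, fun h => ?_, beta dense_cnt shd, fun h => ?_⟩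
  · have := (isCompact_iff_compactSpace.2 h).isClosed
    exact ne_univ (this.closure_eq.symm.trans dense_cnt.closure_eq)
  obtain ⟨x, -, hx⟩ := h (fun _ => univ) fun _ => ⟨isOpen_univ, ⟨⟨fun _ => false, by simp [D]⟩, trivial⟩⟩
  obtain ⟨φ, hφ, p, hp⟩ := seq x
  exact hx φ hφ p hp

end Pool.Agent.Results.MP_8ff099_gt.Sigma
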